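import Pool.Agent.H53R2.Small

set_option autoImplicit false

namespace Pool.Agent.Results.MP_ab1175_al.HopfianImpliesSmall

/-- `G` belongs to the variety of groups defined by the laws `w = 1`, `w ∈ W`. -/
def InVariety (W : Set (FreeGroup ℕ)) (G : Type) [Group G] : Prop :=
  ∀ w ∈ W, ∀ f : ℕ → G, FreeGroup.lift f w = 1

/-- the variety defined by `W` is soluble: the derived lengths of its groups are bounded. -/
def SolubleVariety (W : Set (FreeGroup ℕ)) : Prop :=
  ∃ d : ℕ, ∀ (G : Type) [Group G], InVariety W G → derivedSeries G d = ⊥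

/-- `G` is Hopfian: every surjective endomorphism is injective. -/
def Hopfian (G : Type) [Group G] : Prop :=
  ∀ φ : G →* G, Function.Surjective φ → Function.Injective φ

/-- `G` satisfies the maximal condition on normal subgroups: every normal subgroup of `G` is the
normal closure of a finite set. -/
def MaxNormal (G : Type) [Group G] : Prop :=
  ∀ N : Subgroup G, N.Normal → ∃ S : Finset G, N = Subgroup.normalClosure (S : Set G)

/-- the variety defined by `W` is small: every family of pairwise non-isomorphic finitely generated
groups in it has fewer than `2^ℵ₀` members. -/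
def SmallVariety (W : Set (FreeGroup ℕ)) : Prop :=
  ∀ (ι : Type) (G : ι → Type) [∀ i, Group (G i)], (∀ i, Group.FG (G i)) →
    (∀ i, InVariety W (G i)) → (∀ i j, Nonempty (G i ≃* G j) → i = j) →
    Cardinal.mk ι < Cardinal.continuum

/-- If every finitely generated group in a soluble variety is Hopfian, then every finitely generated
group in the variety satisfies the maximal condition on normal subgroups, and the variety is
small. -/
theorem result (W : Set (FreeGroup ℕ)) (hsol : SolubleVariety W)
    (hopf : ∀ (G : Type) [Group G], Group.FG G → InVariety W G → Hopfian G) :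
    (∀ (G : Type) [Group G], Group.FG G → InVariety W G → MaxNormal G) ∧ SmallVariety W := by
  have hQ : ∀ n, H53R2.QHopf (H53R2.RF W n) := by
    intro n N _ φ hφ
    have hfg : Group.FG (H53R2.RF W n) := QuotientGroup.fg _
    have hfg2 : Group.FG (H53R2.RF W n ⧸ N) := QuotientGroup.fg _
    exact hopf _ hfg2 ((H53R2.RF_inVar W n).quot N) φ hφ
  obtain ⟨u, hu⟩ := H53R2.exists_UI W (hQ 3)
  obtain ⟨d, hd⟩ := hsol
  have hmax : ∀ (G : Type) [Group G] [Group.FG G], InVariety W G → H53R2.MaxN G :=
    fun G _ _ hG => (H53R2.main_induction u W hu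
      (fun G _ _ hG hvn => H53R2.lemmaB2 W hQ G hG hvn) d G hG (hd G hG)).2
  refine ⟨fun G _ hfg hG N hN => (hmax G hG).normalClosure N hN, ?_⟩
  intro ι G _ hfg hG hne
  have hfgn : ∀ n, Group.FG (H53R2.RF W n) := fun n => QuotientGroup.fg _
  have : Countable ι := H53R2.countable_of_maxN W
    (fun n => hmax (H53R2.RF W n) (H53R2.RF_inVar W n)) ι G hfg hG hne
  exact (Cardinal.mk_le_aleph0_iff.2 this).trans_lt Cardinal.aleph0_lt_continuum

end Pool.Agent.Results.MP_ab1175_al.HopfianImpliesSmall
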